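import Pool.Agent.H98.EU.Fin
import Pool.Agent.H98.EU.Free

/-!
# One complete bounded formula for the question whether all bounded formulas are `E₁`

Definitions: `Pool/Agent/H98/EU/Defs.lean` (terms `Tm`, formulas `Fm`, number of symbols `len`, truth `Holds`, `Delta0`, the
axioms `PAminus`), `Pool/Agent/H98/EU/Prenex.lean` (`PrenexE1`, the `E₁` formulas of the problem),
`Pool/Agent/H98/EU/Free.lean` (free variables `Fm.free`).
-/

set_option autoImplicit false

namespace Pool.Agent.Results.MP_e47d5c_lc.CompleteFormula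

open Pool.Agent.H98.EU

/-- `A` and `B` are equivalent in all models of the class `K`. -/
def EquivIn (K : (M : Type) → [CommSemiring M] → [LinearOrder M] → Prop) (A B : Fm) : Prop :=
  ∀ (M : Type) [CommSemiring M] [LinearOrder M], K M → ∀ v : ℕ → M, (A.Holds v ↔ B.Holds v)

/-- (1) There is one `Δ₀` formula `ω` with the only free variable `x_0` such that for every class `K` of models of `PA⁻` (for
example the models of a theory which contains `PA⁻`, like `IΔ₀ + exp`): every `Δ₀` formula is equivalent in `K` to an `E₁`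
formula (without new free variables) if and only if `ω` is.
(2) For every `c` there is an `E₁` formula `B` with the only free variable `x_0` such that in every model `M` of `PA⁻` no `E₁`
formula with at most `c` symbols is equivalent to `¬ B`, for any values in `M` of its other variables. -/
theorem result :
    (∃ ω : Fm, Delta0 ω ∧ ω.free ⊆ {0} ∧
      ∀ K : (M : Type) → [CommSemiring M] → [LinearOrder M] → Prop,
        (∀ (M : Type) [CommSemiring M] [LinearOrder M], K M → PAminus M) →
        ((∀ A, Delta0 A → ∃ B, PrenexE1 B ∧ B.free ⊆ A.free ∧ EquivIn K A B) ↔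
          ∃ B, PrenexE1 B ∧ B.free ⊆ {0} ∧ EquivIn K ω B)) ∧
    ∀ c : ℕ, ∃ B : Fm, PrenexE1 B ∧ B.free ⊆ {0} ∧
      ∀ (M : Type) [CommSemiring M] [LinearOrder M], PAminus M →
        ∀ ψ : Fm, PrenexE1 ψ → ψ.len ≤ c → ∀ v : ℕ → M,
          ∃ x : M, ¬ ((Fm.neg B).Holds (Function.update v 0 x) ↔ ψ.Holds (Function.update v 0 x)) := by
  have h0 : (Fm.neg omega).free ⊆ {0} := by
    intro i hi
    simp [Fm.free, omega, bodyF, stepF, core2F, coreF, BtF, RlF, prT, num, Tm.vars] at hi
    simp
    tauto
  have h1 : Delta0 (.neg omega) := Delta0.neg _ delta0_omega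
  refine ⟨⟨.neg omega, h1, h0, fun K hK => ⟨fun h => ?_, ?_⟩⟩, fun c => ?_⟩
  · obtain ⟨B, hB, hf, hAB⟩ := h _ h1
    exact ⟨B, hB, hf.trans h0, hAB⟩
  · rintro ⟨B, hB, -, hAB⟩ A hA
    obtain ⟨C, hC, hAC⟩ := (reduction1 K hK).2 ⟨B, hB, hAB⟩ A hA
    exact exists_free K hK A C hC hAC
  · obtain ⟨B, hB, hAB⟩ := prenex (E1_univ c)
    have h2 : ∀ (M : Type) [CommSemiring M] [LinearOrder M], PAminus M → ∀ v : ℕ → M,
        ((chi c).Holds v ↔ (Fm.neg B).Holds v) := fun M _ _ P v => not_congr (hAB M P v)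
    refine ⟨kill (B.free.erase 0).toList B, kill_prenex _ hB, fun i hi => ?_, fun M _ _ P ψ hψ hlen v => ?_⟩
    · obtain ⟨h3, h4⟩ := kill_free _ _ i hi
      rw [Finset.mem_singleton]
      by_contra h5
      exact h4 (Finset.mem_toList.2 (Finset.mem_erase.2 ⟨h5, h3⟩))
    · have h6 : ∀ w : ℕ → M, (Fm.neg (kill (B.free.erase 0).toList B)).Holds w ↔ (chi c).Holds w := by
        intro w
        refine (not_congr (kill_holds P _ _ _)).trans ?_
        refine (h2 M P _).symm.trans (chi_free c _ _ ?_)
        rw [if_neg]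
        simp
      obtain ⟨x, hx⟩ := chi_hard P c ψ hψ.E1 hlen v
      exact ⟨x, by rwa [h6]⟩

end Pool.Agent.Results.MP_e47d5c_lc.CompleteFormula
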