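import Pool.Agent.H20.FN.Add

set_option autoImplicit false

/-!
# MP_e47d5c_lc: linear universal quantifiers before additive formulas and one more quantifier

Models are non-negative parts of discretely ordered rings `R`. A formula is additive if its bound variables never
occur inside a product. `AllMatA 0`: formulas `(∀ x_1 ≤ t_1) … (∀ x_m ≤ t_m) μ`, `μ` a Boolean combination (`MatA m`)
of additive formulas and of formulas `(∃ y ≤ s) β`, `(∀ y ≤ s) β` with `β` additive, all terms of `μ` and all `t_i`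
linear in the variables `x_j`, `y` and the bound variables, with coefficients which are terms in the parameters.
`ExMatA 0`: the same with `(∃ x_1 ≤ t_1) …`. `BoolAdd`: Boolean combinations of such formulas and of the formulas
`OneA` of the result `OneUniversal`. `Adds`: built from these by `∧`, `∨` and bounded `∃`.

(1) every formula of the class `Adds` is equivalent to one `E_1` formula in all models of `IE_1`, so in all models
of `IΔ_0 + exp`;
(2) induction for `E_1` formulas implies induction for the formulas of the class `Adds`.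
-/

namespace Pool.Agent.Results.MP_e47d5c_lc.LinearAdditive

open Pool.Agent.H20.E1 Pool.Agent.H20.FL Pool.Agent.H20.FN

theorem result :
    (∀ (n : ℕ) (φ : Fml n), Adds φ → ∃ ψ : Fml n, IsE1 ψ ∧
      ∀ (R : Type) [CommRing R] [LinearOrder R] [IsStrictOrderedRing R],
        Model (fun _ θ => IsE1 θ) R →
        ∀ v : Fin n → R, (∀ i, 0 ≤ v i) → (φ.holds v ↔ ψ.holds v)) ∧
    (∀ (R : Type) [CommRing R] [LinearOrder R] [IsStrictOrderedRing R],
      Model (fun _ θ => IsE1 θ) R → Model (fun _ θ => Adds θ) R) := by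
  have h1 : ∀ (n : ℕ) (φ : Fml n), Adds φ → ∃ ψ : Fml n, IsE1 ψ ∧
      ∀ (R : Type) [CommRing R] [LinearOrder R] [IsStrictOrderedRing R],
        Model (fun _ θ => IsE1 θ) R →
        ∀ v : Fin n → R, (∀ i, 0 ≤ v i) → (φ.holds v ↔ ψ.holds v) := by
    intro n φ hφ
    obtain ⟨ψ, h, h'⟩ := D.adds hφ
    exact ⟨ψ, h, fun R _ _ _ hR v hv => h' ⟨R, hR⟩ v hv⟩
  refine ⟨h1, ?_⟩
  intro R _ _ _ hR
  refine ⟨hR.disc, fun n φ hφ v hv h0 hs a ha => ?_⟩
  obtain ⟨ψ, hψ, hh⟩ := h1 (n + 1) φ hφ
  have hh' := fun b (hb : 0 ≤ b) => hh R hR (Fin.cons b v) (cons_nonneg hb hv)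
  rw [hh' a ha]
  refine hR.ind n ψ hψ v hv ((hh' 0 le_rfl).1 h0) (fun b hb hb' => ?_) a ha
  exact (hh' (b + 1) (by linarith)).1 (hs b hb ((hh' b hb).2 hb'))

end Pool.Agent.Results.MP_e47d5c_lc.LinearAdditive
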