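import Pool.Agent.H20.E1.One

set_option autoImplicit false

/-!
# MP_e47d5c_lc: bounded formulas with one square and otherwise linear quantifiers

Models are non-negative parts of discretely ordered rings `R` (`PA^-`). A formula is `OneSquare` if it is
`∀ x ≤ t, ∀ w_1 ≤ t_1, …, ∀ w_k ≤ t_k, α` with `α` quantifier-free, the bounds being terms in the parameters and
the terms of `α` being linear in `x * x, x, w_1, …, w_k` with coefficients which are terms in the parameters.

(1) The negation of every `E_1` formula is equivalent in `PA^-` to a `OneSquare` formula.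
(2) For every class `K` of models of `PA^-`: every bounded formula is equivalent in `K` to an `E_1` formula if and
only if every `OneSquare` formula with one parameter is.
-/

namespace Pool.Agent.Results.MP_e47d5c_lc.OneSquare

open Pool.Agent.H20.E1

theorem result :
    (∀ (n : ℕ) (φ : Fml n), IsE1 φ → ∃ χ : Fml n, OneSquare χ ∧
      ∀ (R : Type) [CommRing R] [LinearOrder R] [IsStrictOrderedRing R],
        Model (fun _ _ => False) R →
        ∀ v : Fin n → R, (∀ i, 0 ≤ v i) → (¬ φ.holds v ↔ χ.holds v)) ∧
    (∀ K : (R : Type) → [CommRing R] → [LinearOrder R] → [IsStrictOrderedRing R] → Prop,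
      (∀ (R : Type) [CommRing R] [LinearOrder R] [IsStrictOrderedRing R], K R →
        Model (fun _ _ => False) R) →
      ((∀ (n : ℕ) (φ : Fml n), EqE1 K φ) ↔ ∀ φ : Fml 1, OneSquare φ → EqE1 K φ)) := by
  refine ⟨fun n φ hφ => ?_, fun K hK => ⟨fun h φ _ => h 1 φ, fun h n φ => ?_⟩⟩
  · obtain ⟨χ, h1, h2⟩ := neg_e1_oneSquare hφ
    exact ⟨χ, h1, fun R _ _ _ hR v hv => h2 R hR.disc v hv⟩
  · exact complete_one K (fun R _ _ _ hR => (hK R hR).disc) h φ

end Pool.Agent.Results.MP_e47d5c_lc.OneSquare
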