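import Pool.Agent.H20.E1.QE2
import Pool.Agent.H20.E1.Neg

set_option autoImplicit false

/-!
# MP_e47d5c_lc: bounded formulas with one universal quantifier over a multiplied variable

Models are non-negative parts of discretely ordered rings `R`. A quantifier is additive if its variable
never occurs inside a product. Tame formulas are built by `∧`, `∨` and bounded `∃` (of any kind) from Boolean
combinations of formulas with additive quantifiers only and of such formulas behind one more quantifier.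

(1) every tame formula is equivalent to one `E_1` formula in all models of `IOpen`, so in all models of
`IΔ_0 + exp`;
(2) induction for `E_1` formulas implies induction for tame formulas;
(3) `PA^-` together with all universal sentences true in `ℕ` does not suffice in (1): no `E_1` formula is
equivalent to `∀ y ≤ x, y + y ≠ x` in all its models.
-/

namespace Pool.Agent.Results.MP_e47d5c_lc.OneUniversal

open Pool.Agent.H20.E1

theorem result :
    (∀ (n : ℕ) (φ : Fml n), Tame φ → ∃ ψ : Fml n, IsE1 ψ ∧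
      ∀ (R : Type) [CommRing R] [LinearOrder R] [IsStrictOrderedRing R],
        Model (fun _ θ => θ.IsQF) R →
        ∀ v : Fin n → R, (∀ i, 0 ≤ v i) → (φ.holds v ↔ ψ.holds v)) ∧
    (∀ (R : Type) [CommRing R] [LinearOrder R] [IsStrictOrderedRing R],
      Model (fun _ θ => IsE1 θ) R → Model (fun _ θ => Tame θ) R) ∧
    (∀ ψ : Fml 1, IsE1 ψ →
      ¬ ∀ (R : Type) [CommRing R] [LinearOrder R] [IsStrictOrderedRing R],
        Model (fun _ _ => False) R → TrueUniv R → ∀ v : Fin 1 → R, (∀ i, 0 ≤ v i) →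
          ((Fml.all (.var 0) (.neg (.eq (.add (.var 0) (.var 0)) (.var 1)))).holds v ↔
            ψ.holds v)) := by
  have h1 : ∀ (n : ℕ) (φ : Fml n), Tame φ → ∃ ψ : Fml n, IsE1 ψ ∧
      ∀ (R : Type) [CommRing R] [LinearOrder R] [IsStrictOrderedRing R],
        Model (fun _ θ => θ.IsQF) R →
        ∀ v : Fin n → R, (∀ i, 0 ≤ v i) → (φ.holds v ↔ ψ.holds v) := by
    intro n φ hφ
    obtain ⟨ψ, h, h'⟩ := tame_e1d hφ
    exact ⟨ψ, h, fun R _ _ _ hR v hv => h' ⟨R, hR⟩ v hv⟩
  refine ⟨h1, ?_, ?_⟩
  · intro R _ _ _ hR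
    refine ⟨hR.disc, fun n φ hφ v hv h0 hs a ha => ?_⟩
    obtain ⟨ψ, hψ, hh⟩ := h1 (n + 1) φ hφ
    have hq : Model (fun _ θ => θ.IsQF) R :=
      ⟨hR.disc, fun n θ hθ => hR.ind n θ (.qf hθ)⟩
    have hh' := fun b (hb : 0 ≤ b) => hh R hq (Fin.cons b v) (cons_nonneg hb hv)
    rw [hh' a ha]
    refine hR.ind n ψ hψ v hv ((hh' 0 le_rfl).1 h0) (fun b hb hb' => ?_) a ha
    exact (hh' (b + 1) (by linarith)).1 (hs b hb ((hh' b hb).2 hb'))
  · intro ψ hψ h
    refine pam_not ψ hψ (fun R _ _ _ hd hu v hv => ?_)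
    exact h R ⟨hd, fun _ _ hf => hf.elim⟩ hu v hv

end Pool.Agent.Results.MP_e47d5c_lc.OneUniversal
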